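import Mathlib
import Pool.Agent.H447R2.ML.Pell
import Pool.Agent.H447R2.ML.Fin2

set_option autoImplicit false

/-!
# Metric finiteness for the solutions of `p² - 2 r² = -1` in primes `p` and `r`

The positive solutions of `p² - 2r² = -1` are given by `p + r√2 = (1 + √2) ^ n` with `n` odd, that
is by `p = ((1 + √2) ^ n + (1 - √2) ^ n) / 2`, `r = ((1 + √2) ^ n - (1 - √2) ^ n) / (2√2)`.
Let `A α β n` and `B α β n` be the `n`-rough parts (the products, with multiplicity, of the prime
factors larger than `n`) of the integer parts of `β α ^ n + (1 - √2) ^ n / 2` and of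
`β α ^ n - (1 - √2) ^ n / (2√2)`.  For primes `n ≥ 5`, `A (1 + √2) (1 / 2) n = p` and
`B (1 + √2) (1 / (2√2)) n = r`.  We prove that for every `α > 1`, and so for `α = 1 + √2`, and
almost every pair `(β, β')` of positive numbers only finitely many `n` have both `A α β n` and
`B α β' n` prime.
-/

namespace Pool.Agent.Results.MP_927e73_nt.BothPrimeFinite

open Filter Topology MeasureTheory

/-- The product, with multiplicity, of the prime factors of `m` that are larger than `n`. -/
def roughPart (n m : ℕ) : ℕ := (m.primeFactorsList.filter (fun r => n < r)).prod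

/-- The `n`-rough part of the integer part of `β * α ^ n + (1 - √2) ^ n / 2`. -/
noncomputable def A (α β : ℝ) (n : ℕ) : ℕ :=
  roughPart n ⌊β * α ^ n + (1 - √2) ^ n / 2⌋₊

/-- The `n`-rough part of the integer part of `β * α ^ n - (1 - √2) ^ n / (2 * √2)`. -/
noncomputable def B (α β : ℝ) (n : ℕ) : ℕ :=
  roughPart n ⌊β * α ^ n - (1 - √2) ^ n / (2 * √2)⌋₊

/-- Metric finiteness, together with the identification of the special amplitudes. -/
theorem result :
    (∀ k : ℕ, (2 * k + 1).Prime → 2 ≤ k → ∀ p r : ℕ, (p : ℝ) + r * √2 = (1 + √2) ^ (2 * k + 1) →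
      A (1 + √2) (1 / 2) (2 * k + 1) = p ∧ B (1 + √2) (1 / (2 * √2)) (2 * k + 1) = r) ∧
    (∀ α : ℝ, 1 < α → ∀ᵐ z : ℝ × ℝ, 0 < z.1 → 0 < z.2 →
      {n : ℕ | (A α z.1 n).Prime ∧ (B α z.2 n).Prime}.Finite) := by
  constructor
  · intro k hk h2 p r h
    exact ⟨Pool.Agent.H447R2.ML.rough_pell_p hk (by omega) h,
      Pool.Agent.H447R2.ML.rough_pell_r hk (by omega) h⟩
  · intro α hα
    refine Pool.Agent.H447R2.ML.both_finite (g := fun n => (1 - √2) ^ n / 2)
      (g' := fun n => -((1 - √2) ^ n / (2 * √2))) (κ := 1) (C := 1) (C' := 1)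
      le_rfl ?_ ?_ hα
    · intro n
      have := Pool.Agent.H447R2.ML.abs_psi_le n
      rw [abs_div, abs_of_pos (show (0 : ℝ) < 2 by norm_num), one_pow, mul_one,
        div_le_one (by norm_num)]
      linarith
    · intro n
      have := Pool.Agent.H447R2.ML.abs_psi_le n
      have h1 : 1 ≤ √2 := Real.le_sqrt_of_sq_le (by norm_num)
      rw [abs_neg, abs_div, abs_of_pos (show (0 : ℝ) < 2 * √2 by positivity), one_pow, mul_one,
        div_le_one (by positivity)]
      linarith

end Pool.Agent.Results.MP_927e73_nt.BothPrimeFinite
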