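import Mathlib
import Pool.Agent.H447R2.ML.Pell

set_option autoImplicit false

/-!
# A metric law for primes `p` with `p² - 2 r² = -1`

The positive solutions of `p² - 2r² = -1` are given by `p + r√2 = (1 + √2) ^ n` with `n` odd, so
that `p = ((1 + √2) ^ n + (1 - √2) ^ n) / 2`, and `p` can be prime only when `n` is prime.
For real `α > 1`, `β > 0` let `W α β n` be the `n`-rough part (the product, with multiplicity, of
the prime factors larger than `n`) of the integer part of `β α ^ n + (1 - √2) ^ n / 2`.  At the
point `(1 + √2, 1/2)` this is `p` itself, for all primes `n ≥ 5`.  We prove that for almost every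
`(α, β)` the number of primes `n ≤ y` with `W α β n` prime is asymptotic to
`e ^ γ log y / log α`.
-/

namespace Pool.Agent.Results.MP_927e73_nt.PellLaw

open Filter Topology MeasureTheory

/-- The product, with multiplicity, of the prime factors of `m` that are larger than `n`. -/
def roughPart (n m : ℕ) : ℕ := (m.primeFactorsList.filter (fun r => n < r)).prod

/-- The `n`-rough part of the integer part of `β * α ^ n + (1 - √2) ^ n / 2`. -/
noncomputable def W (α β : ℝ) (n : ℕ) : ℕ :=
  roughPart n ⌊β * α ^ n + (1 - √2) ^ n / 2⌋₊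

/-- The number of primes `n ≤ y` for which `W α β n` is prime. -/
noncomputable def N (α β : ℝ) (y : ℕ) : ℕ :=
  ((Finset.range (y + 1)).filter (fun n => n.Prime ∧ (W α β n).Prime)).card

/-- The metric law, together with the identification of the point `(1 + √2, 1 / 2)`. -/
theorem result :
    (∀ k : ℕ, (2 * k + 1).Prime → 2 ≤ k → ∀ p r : ℕ, (p : ℝ) + r * √2 = (1 + √2) ^ (2 * k + 1) →
      W (1 + √2) (1 / 2) (2 * k + 1) = p) ∧
    (∀ᵐ z : ℝ × ℝ, 1 < z.1 → 0 < z.2 →
      Tendsto (fun y : ℕ => (N z.1 z.2 y : ℝ) / Real.log (y : ℝ)) atTop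
        (𝓝 (Real.exp Real.eulerMascheroniConstant / Real.log z.1))) := by
  constructor
  · intro k hk h2 p r h
    exact Pool.Agent.H447R2.ML.rough_pell_p hk (by omega) h
  · refine Pool.Agent.H447R2.ML.law (g := fun n => (1 - √2) ^ n / 2) (κ := 1) (C := 1)
      le_rfl ?_
    intro n
    have := Pool.Agent.H447R2.ML.abs_psi_le n
    rw [abs_div, abs_of_pos (show (0 : ℝ) < 2 by norm_num), one_pow, mul_one,
      div_le_one (by norm_num)]
    linarith

end Pool.Agent.Results.MP_927e73_nt.PellLaw
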