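import Mathlib
import Pool.Agent.H447R2.ML.R6
import Pool.Agent.H447R2.ML.Pell

set_option autoImplicit false

/-!
# Primes in the solutions of `p² - 2 r² = -1`: almost every amplitude at base `1 + √2`

The positive solutions of `p² - 2r² = -1` are given by `p + r√2 = (1 + √2) ^ n` with `n` odd.  For
real `β > 0` and a prime `n` let `W β n` be the `n`-rough part (the product, with multiplicity, of
the prime factors larger than `n`) of the integer nearest to `β (1 + √2) ^ n`.  For `n ≥ 5` prime it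
equals `p` at `β = 1 / 2` and `r` at `β = 1 / (2 √2)`.  Let `N β y` be the number of primes `n ≤ y`
with `W β n` prime.  We prove that the mean of `N β y` over every window of amplitudes `β` is
asymptotic to `e ^ γ log y / log (1 + √2)`, and that for almost every `β > 0` we have
`liminf N β y / log y ≤ e ^ γ / log (1 + √2) ≤ limsup N β y / log y`.
-/

namespace Pool.Agent.Results.MP_927e73_nt.SilverBase

open Filter Topology MeasureTheory

/-- The product, with multiplicity, of the prime factors of `m` that are larger than `n`. -/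
def roughPart (n m : ℕ) : ℕ := (m.primeFactorsList.filter (fun r => n < r)).prod

/-- The `n`-rough part of the integer nearest to `β * (1 + √2) ^ n`. -/
noncomputable def W (β : ℝ) (n : ℕ) : ℕ := roughPart n ⌊β * (1 + √2) ^ n + 1 / 2⌋₊

/-- The number of primes `n ≤ y` for which `W β n` is prime. -/
noncomputable def N (β : ℝ) (y : ℕ) : ℕ :=
  ((Finset.range (y + 1)).filter (fun n => n.Prime ∧ (W β n).Prime)).card

lemma floor_near {x e : ℝ} {m : ℕ} (hm : (m : ℝ) = x + e) (he : |e| < 1 / 2) :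
    ⌊x + 1 / 2⌋₊ = m := by
  rw [abs_lt] at he
  rw [Nat.floor_eq_iff (by have : (0 : ℝ) ≤ m := Nat.cast_nonneg m; linarith)]
  constructor <;> linarith

lemma psi_pow {n : ℕ} (hn : 1 ≤ n) : |(1 - √2) ^ n| < 1 / 2 := by
  have h1 : 1 ≤ √2 := Real.le_sqrt_of_sq_le (by norm_num)
  have h3 : √2 ≤ 1.45 := Real.sqrt_le_iff.2 ⟨by norm_num, by norm_num⟩
  have h2 : |1 - √2| ≤ 1 := by
    rw [abs_le]; constructor <;> linarith
  rw [abs_pow]
  calc |1 - √2| ^ n ≤ |1 - √2| ^ 1 := pow_le_pow_of_le_one (abs_nonneg _) h2 hn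
    _ = √2 - 1 := by rw [pow_one, abs_of_nonpos (by linarith)]; ring
    _ < 1 / 2 := by linarith

/-- The values at `β = 1 / 2` and `β = 1 / (2 √2)`, the mean of the counting function over the
amplitudes and the almost everywhere statement, at base `1 + √2`. -/
theorem result :
    (∀ k : ℕ, (2 * k + 1).Prime → 2 ≤ k → ∀ p r : ℕ, (p : ℝ) + r * √2 = (1 + √2) ^ (2 * k + 1) →
      W (1 / 2) (2 * k + 1) = p ∧ W (1 / (2 * √2)) (2 * k + 1) = r) ∧
    (∀ s t : ℝ, s < t → Tendsto (fun y : ℕ =>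
        (∫ u in s..t, (N (Real.exp u) y : ℝ)) / ((t - s) * Real.log y)) atTop
        (𝓝 (Real.exp Real.eulerMascheroniConstant / Real.log (1 + √2)))) ∧
    (∀ᵐ β : ℝ, 0 < β →
      (∀ c : ℝ, c < Real.exp Real.eulerMascheroniConstant / Real.log (1 + √2) →
        ∃ᶠ y : ℕ in atTop, c * Real.log y < N β y) ∧
      (∀ c : ℝ, Real.exp Real.eulerMascheroniConstant / Real.log (1 + √2) < c →
        ∃ᶠ y : ℕ in atTop, (N β y : ℝ) < c * Real.log y)) := by
  have h14 : (1.4 : ℝ) ≤ √2 := Real.le_sqrt_of_sq_le (by norm_num)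
  have key := Pool.Agent.H447R2.ML.shift_floor (α := 1 + √2) (κ := 1) (C := 1)
    (g := fun _ => 1 / 2) (by linarith) (by norm_num) (by linarith) (by intro p; norm_num)
  refine ⟨fun k hk h2 p r h => ?_, key⟩
  set n := 2 * k + 1 with hn
  have h5 : 5 ≤ n := by omega
  have hψ := psi_pow (show 1 ≤ n by omega)
  have hψ2 : |(1 - √2) ^ n / 2| < 1 / 2 := by
    rw [abs_div, abs_of_pos (show (0 : ℝ) < 2 by norm_num)]
    linarith [abs_nonneg ((1 - √2) ^ n)]
  have hψ3 : |-((1 - √2) ^ n / (2 * √2))| < 1 / 2 := by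
    rw [abs_neg, abs_div, abs_of_pos (show (0 : ℝ) < 2 * √2 by positivity)]
    exact lt_of_le_of_lt (div_le_self (abs_nonneg _) (by linarith)) hψ
  obtain ⟨e1, e2⟩ := Pool.Agent.H447R2.ML.parts (h.trans (Pool.Agent.H447R2.ML.pow_eq n).symm)
  obtain ⟨c1, c2⟩ := Pool.Agent.H447R2.ML.closed2 n
  have hs : (√2 : ℝ) ≠ 0 := by positivity
  have hp : (p : ℝ) = 1 / 2 * (1 + √2) ^ n + (1 - √2) ^ n / 2 := by
    have h3 : p * 2 = Pool.Agent.H447R2.ML.V 2 n := by
      have := Pool.Agent.H447R2.ML.V_two_mod n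
      omega
    have h4 : (p : ℝ) * 2 = Pool.Agent.H447R2.ML.V 2 n := by exact_mod_cast h3
    rw [c2] at h4
    linarith
  have hr : (r : ℝ) = 1 / (2 * √2) * (1 + √2) ^ n + -((1 - √2) ^ n / (2 * √2)) := by
    rw [e2, ← mul_right_cancel_iff_of_pos (show (0 : ℝ) < 2 * √2 by positivity), c1]
    field_simp
    ring
  constructor
  · have k1 := Pool.Agent.H447R2.ML.rough_pell_p hk h5 h
    rw [← hp, Nat.floor_natCast] at k1
    unfold W
    rw [floor_near hp hψ2]
    exact k1
  · have k1 := Pool.Agent.H447R2.ML.rough_pell_r hk h5 h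
    rw [sub_eq_add_neg, ← hr, Nat.floor_natCast] at k1
    unfold W
    rw [floor_near hr hψ3]
    exact k1

end Pool.Agent.Results.MP_927e73_nt.SilverBase
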